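import Pool.Agent.Helper65.EV.St

set_option autoImplicit false

open MeasureTheory ProbabilityTheory Set Filter
open scoped ENNReal Topology
open Pool.Agent.Helper65.EV Pool.Agent.Helper84.Eve

namespace Pool.Agent.Helper90.EV

universe u

/-- the configurations of `n` points with `x i = x j` and few points near `x i` -/
private def DD (n : ℕ) (r δ : ℝ) (i j : Fin n) : Set (Fin n → ℝ) :=
  {x | x i = x j ∧ ∑ l : Fin n, (if |x l - x i| ≤ r then (1 : ℝ) else 0) ≤ δ * n}

private lemma meas_DD (n : ℕ) (r δ : ℝ) (i j : Fin n) : MeasurableSet (DD n r δ i j) := by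
  have e : DD n r δ i j = {x | x i = x j} ∩
      {x | ∑ l : Fin n, (if |x l - x i| ≤ r then (1 : ℝ) else 0) ≤ δ * n} := rfl
  rw [e]
  refine (measurableSet_eq_fun (measurable_pi_apply i) (measurable_pi_apply j)).inter ?_
  refine measurableSet_le (Finset.measurable_sum _ fun l _ => ?_) measurable_const
  refine Measurable.ite (measurableSet_le ?_ measurable_const) measurable_const measurable_const
  exact (continuous_abs.measurable).comp ((measurable_pi_apply l).sub (measurable_pi_apply i))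

private lemma ext_pi {n : ℕ} {μ ν : Measure (Fin n → ℝ)} [IsFiniteMeasure μ]
    (hu : μ univ = ν univ)
    (h : ∀ B : Fin n → Set ℝ, (∀ i, MeasurableSet (B i)) → μ (univ.pi B) = ν (univ.pi B)) :
    μ = ν := by
  refine ext_of_generate_finite _ generateFrom_pi.symm isPiSystem_pi ?_ hu
  rintro s ⟨B, hB, rfl⟩
  exact h B (fun i => hB i (mem_univ i))

private lemma exists_perm {n : ℕ} {i j i' j' : Fin n} (h : i ≠ j) (h' : i' ≠ j') :
    ∃ σ : Equiv.Perm (Fin n), σ i = i' ∧ σ j = j' := by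
  refine ⟨Equiv.swap (Equiv.swap i i' j) j' * Equiv.swap i i', ?_, ?_⟩
  · rw [Equiv.Perm.mul_apply, Equiv.swap_apply_left]
    refine Equiv.swap_apply_of_ne_of_ne ?_ h'
    intro hc
    have h1 : Equiv.swap i i' i = Equiv.swap i i' j := by rw [Equiv.swap_apply_left]; exact hc
    exact h ((Equiv.swap i i').injective h1)
  · rw [Equiv.Perm.mul_apply, Equiv.swap_apply_left]

private lemma DD_eq {n : ℕ} (ν : Measure (Fin n → ℝ))
    (hex : ∀ σ : Equiv.Perm (Fin n), ν.map (fun x l => x (σ l)) = ν) (r δ : ℝ)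
    {i j i' j' : Fin n} (h : i ≠ j) (h' : i' ≠ j') :
    ν (DD n r δ i' j') = ν (DD n r δ i j) := by
  obtain ⟨σ, rfl, rfl⟩ := exists_perm h h'
  have hm : Measurable fun (x : Fin n → ℝ) (l : Fin n) => x (σ l) :=
    measurable_pi_lambda _ fun l => measurable_pi_apply _
  conv_rhs => rw [← hex σ]
  rw [Measure.map_apply hm (meas_DD n r δ i j)]
  congr 1
  ext x
  simp only [DD, mem_ofPred_eq, mem_preimage]
  rw [← Equiv.sum_comp σ (fun l => if |x l - x (σ i)| ≤ r then (1 : ℝ) else 0)]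

private lemma DD_sum {n : ℕ} {r δ : ℝ} (hr : 0 ≤ r) (x : Fin n → ℝ) (i : Fin n) :
    ∑ j : Fin n, (DD n r δ i j).indicator (fun _ => (1 : ℝ≥0∞)) x ≤ ENNReal.ofReal (δ * n) := by
  by_cases hc : ∑ l : Fin n, (if |x l - x i| ≤ r then (1 : ℝ) else 0) ≤ δ * n
  · refine le_trans ?_ (ENNReal.ofReal_le_ofReal hc)
    rw [ENNReal.ofReal_sum_of_nonneg (fun l _ => by split_ifs <;> norm_num)]
    refine Finset.sum_le_sum fun l _ => ?_
    by_cases hx : x ∈ DD n r δ i l
    · have h1 : x i = x l := hx.1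
      rw [indicator_of_mem hx, if_pos (by rw [h1, sub_self, abs_zero]; exact hr), ENNReal.ofReal_one]
    · rw [indicator_of_notMem hx]; exact zero_le
  · have h0 : ∀ l : Fin n, (DD n r δ i l).indicator (fun _ => (1 : ℝ≥0∞)) x = 0 := by
      intro l
      exact indicator_of_notMem (fun hx => hc hx.2) _
    simp only [h0, Finset.sum_const_zero]
    exact zero_le

private lemma DD_bound {n : ℕ} (hn : 2 ≤ n) (ν : Measure (Fin n → ℝ)) [IsProbabilityMeasure ν]
    (hex : ∀ σ : Equiv.Perm (Fin n), ν.map (fun x l => x (σ l)) = ν) {r δ : ℝ} (hr : 0 ≤ r)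
    (hδ : 0 ≤ δ) (i j : Fin n) (hij : i ≠ j) :
    ν (DD n r δ i j) ≤ ENNReal.ofReal (2 * δ) := by
  classical
  have h1 : ∑ p ∈ (Finset.univ : Finset (Fin n)).offDiag, ν (DD n r δ p.1 p.2) ≤
      ENNReal.ofReal (n * (δ * n)) := by
    calc ∑ p ∈ (Finset.univ : Finset (Fin n)).offDiag, ν (DD n r δ p.1 p.2)
        ≤ ∑ p ∈ (Finset.univ : Finset (Fin n)) ×ˢ (Finset.univ : Finset (Fin n)),
            ν (DD n r δ p.1 p.2) := by
          refine Finset.sum_le_sum_of_subset ?_
          intro p _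
          simp
      _ = ∑ i : Fin n, ∑ j : Fin n, ν (DD n r δ i j) := Finset.sum_product _ _ _
      _ = ∑ i : Fin n, ∑ j : Fin n, ∫⁻ x, (DD n r δ i j).indicator (fun _ => (1 : ℝ≥0∞)) x ∂ν := by
          refine Finset.sum_congr rfl fun i _ => Finset.sum_congr rfl fun j _ => ?_
          rw [lintegral_indicator (meas_DD n r δ i j)]
          simp
      _ = ∑ i : Fin n, ∫⁻ x, ∑ j : Fin n, (DD n r δ i j).indicator (fun _ => (1 : ℝ≥0∞)) x ∂ν := by
          refine Finset.sum_congr rfl fun i _ => ?_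
          rw [lintegral_finsetSum]
          intro j _
          exact measurable_const.indicator (meas_DD n r δ i j)
      _ ≤ ∑ _i : Fin n, ENNReal.ofReal (δ * n) := by
          refine Finset.sum_le_sum fun i _ => ?_
          calc ∫⁻ x, ∑ j : Fin n, (DD n r δ i j).indicator (fun _ => (1 : ℝ≥0∞)) x ∂ν
              ≤ ∫⁻ _x, ENNReal.ofReal (δ * n) ∂ν :=
                lintegral_mono fun x => DD_sum hr x i
            _ = ENNReal.ofReal (δ * n) := by simp
      _ = ENNReal.ofReal (n * (δ * n)) := by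
          rw [Finset.sum_const, Finset.card_univ, Fintype.card_fin, nsmul_eq_mul,
            ENNReal.ofReal_mul (p := (n : ℝ)) (q := δ * n) (Nat.cast_nonneg n),
            ENNReal.ofReal_natCast]
  have h2 : ∑ p ∈ (Finset.univ : Finset (Fin n)).offDiag, ν (DD n r δ p.1 p.2) =
      ((n * n - n : ℕ) : ℝ≥0∞) * ν (DD n r δ i j) := by
    rw [Finset.sum_congr rfl (g := fun _ => ν (DD n r δ i j)) (fun p hp =>
      DD_eq ν hex r δ hij (Finset.mem_offDiag.1 hp).2.2)]
    rw [Finset.sum_const, Finset.offDiag_card, Finset.card_univ, Fintype.card_fin, nsmul_eq_mul]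
  rw [h2] at h1
  have h3 : ν (DD n r δ i j) ≠ ∞ := measure_ne_top _ _
  have h4 := ENNReal.toReal_mono ENNReal.ofReal_ne_top h1
  rw [ENNReal.toReal_mul, ENNReal.toReal_ofReal (by positivity), ENNReal.toReal_natCast] at h4
  refine (ENNReal.le_ofReal_iff_toReal_le h3 (by positivity)).2 ?_
  set p := (ν (DD n r δ i j)).toReal with hp
  have hn' : (2 : ℝ) ≤ n := by exact_mod_cast hn
  have h5 : ((n * n - n : ℕ) : ℝ) = (n : ℝ) * ((n : ℝ) - 1) := by
    rw [Nat.cast_sub (Nat.le_mul_self n)]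
    push_cast
    ring
  rw [h5] at h4
  have h6 : ((n : ℝ) - 1) * p ≤ δ * n := by
    have h7 : (n : ℝ) * (((n : ℝ) - 1) * p) ≤ n * (δ * n) := by linarith
    exact le_of_mul_le_mul_left h7 (by linarith)
  have hp0 : 0 ≤ p := ENNReal.toReal_nonneg
  by_contra hcon
  push Not at hcon
  have h8 : ((n : ℝ) - 1) * (2 * δ) < ((n : ℝ) - 1) * p :=
    mul_lt_mul_of_pos_left hcon (by linarith)
  nlinarith

private lemma exch_law {Ω : Type u} [MeasurableSpace Ω] {P : Measure Ω} [IsProbabilityMeasure P]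
    (X : ℕ → Ω → ℝ) (hm : ∀ i, AEMeasurable (X i) P) (n : ℕ)
    (hex : ∀ (B : Fin n → Set ℝ), (∀ i, MeasurableSet (B i)) → ∀ σ : Equiv.Perm (Fin n),
      P {ω | ∀ i, X (σ i) ω ∈ B i} ≤ P {ω | ∀ i : Fin n, X i ω ∈ B i}) (σ : Equiv.Perm (Fin n)) :
    (P.map (fun ω (l : Fin n) => X l ω)).map (fun x l => x (σ l)) =
      P.map (fun ω (l : Fin n) => X l ω) := by
  have hV : AEMeasurable (fun ω (l : Fin n) => X l ω) P := aemeasurable_pi_lambda _ fun l => hm l
  have hs : Measurable fun (x : Fin n → ℝ) (l : Fin n) => x (σ l) :=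
    measurable_pi_lambda _ fun l => measurable_pi_apply _
  have hP : IsProbabilityMeasure (P.map (fun ω (l : Fin n) => X l ω)) :=
    Measure.isProbabilityMeasure_map hV
  have hP' : IsProbabilityMeasure ((P.map (fun ω (l : Fin n) => X l ω)).map
      (fun x l => x (σ l))) := Measure.isProbabilityMeasure_map hs.aemeasurable
  refine ext_pi (by rw [measure_univ, measure_univ]) ?_
  intro B hB
  have hpi : MeasurableSet (univ.pi B) := MeasurableSet.univ_pi hB
  rw [Measure.map_apply hs hpi, Measure.map_apply_of_aemeasurable hV (hs hpi),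
    Measure.map_apply_of_aemeasurable hV hpi]
  have e1 : (fun ω (l : Fin n) => X l ω) ⁻¹' ((fun (x : Fin n → ℝ) l => x (σ l)) ⁻¹' univ.pi B) =
      {ω | ∀ i, X (σ i) ω ∈ B i} := by
    ext ω; simp
  have e2 : (fun ω (l : Fin n) => X l ω) ⁻¹' (univ.pi B) = {ω | ∀ i : Fin n, X i ω ∈ B i} := by
    ext ω; simp
  rw [e1, e2]
  refine le_antisymm (hex B hB σ) ?_
  have h1 := hex (fun l => B (σ⁻¹ l)) (fun l => hB _) σ⁻¹
  have e3 : {ω | ∀ i, X ((σ⁻¹ : Equiv.Perm (Fin n)) i) ω ∈ B (σ⁻¹ i)} =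
      {ω | ∀ i : Fin n, X i ω ∈ B i} := by
    ext ω
    simp only [mem_ofPred_eq]
    constructor
    · intro h i
      have := h (σ i)
      simpa using this
    · intro h i
      exact h _
  have e4 : {ω | ∀ i : Fin n, X i ω ∈ B (σ⁻¹ i)} = {ω | ∀ i, X (σ i) ω ∈ B i} := by
    ext ω
    simp only [mem_ofPred_eq]
    constructor
    · intro h i
      have := h (σ i)
      simpa using this
    · intro h i
      have := h (σ⁻¹ i)
      simpa using this
  rw [e3, e4] at h1
  exact h1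

private lemma DD_anti (n : ℕ) {r r' δ : ℝ} (h : r' ≤ r) (i j : Fin n) :
    DD n r δ i j ⊆ DD n r' δ i j := by
  rintro x ⟨h1, h2⟩
  refine ⟨h1, le_trans (Finset.sum_le_sum fun l _ => ?_) h2⟩
  by_cases hx : |x l - x i| ≤ r'
  · rw [if_pos hx, if_pos (hx.trans h)]
  · rw [if_neg hx]; split_ifs <;> norm_num

private lemma near {x : ℕ → ℝ} {μ : Measure ℝ} (h : EmpLimit x μ) {c δ : ℝ} (hδ : 0 < δ)
    (hc : μ {c} = 0) : ∃ m0 : ℕ, ∀ n, m0 ≤ n →
      ∑ l ∈ Finset.range n, (if |x l - c| ≤ 1 / ((m0 : ℝ) + 1) then (1 : ℝ) else 0) ≤ δ * n := by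
  obtain ⟨hp, hf⟩ := h
  -- a small ball of small mass
  have h1 : Tendsto (fun r => μ (Metric.cthickening r {c})) (𝓝 0) (𝓝 (μ {c})) :=
    tendsto_measure_cthickening_of_isClosed ⟨1, one_pos, measure_ne_top _ _⟩ isClosed_singleton
  rw [hc] at h1
  have h2 : Tendsto (fun k : ℕ => 2 / ((k : ℝ) + 1)) atTop (𝓝 0) := by
    have := (tendsto_one_div_add_atTop_nhds_zero_nat (𝕜 := ℝ)).const_mul 2
    rw [mul_zero] at this
    refine this.congr fun k => ?_
    ring
  have h3 : ∀ᶠ k : ℕ in atTop, μ (Metric.cthickening (2 / ((k : ℝ) + 1)) {c}) <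
      ENNReal.ofReal (δ / 4) :=
    (h1.comp h2).eventually_lt_const (ENNReal.ofReal_pos.2 (by positivity))
  obtain ⟨k, hk⟩ := h3.exists
  have hk0 : (0 : ℝ) < 2 / ((k : ℝ) + 1) := by positivity
  rw [Metric.cthickening_singleton _ hk0.le] at hk
  have hlim := hf (tent c (2 / ((k : ℝ) + 1))) (tent_cont _ _)
    ⟨1, fun y => by rw [abs_of_nonneg (tent_nonneg _ _ _)]; exact tent_le hk0 _ _⟩
  have hint : ∫ y, tent c (2 / ((k : ℝ) + 1)) y ∂μ < δ / 4 := by
    have h4 : ∫ y, tent c (2 / ((k : ℝ) + 1)) y ∂μ ≤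
        ∫ y, (Metric.closedBall c (2 / ((k : ℝ) + 1))).indicator (fun _ => (1 : ℝ)) y ∂μ := by
      refine integral_mono_of_nonneg (Eventually.of_forall fun y => tent_nonneg _ _ _)
        ((integrable_const (1 : ℝ)).indicator measurableSet_closedBall)
        (Eventually.of_forall fun y => ?_)
      by_cases hy : y ∈ Metric.closedBall c (2 / ((k : ℝ) + 1))
      · rw [indicator_of_mem hy]; exact tent_le hk0 _ _
      · rw [indicator_of_notMem hy]
        refine le_of_eq (tent_zero hk0 fun hy' => hy ?_)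
        rw [Metric.mem_closedBall, Real.dist_eq, abs_le]
        constructor <;> linarith [hy'.1, hy'.2]
    rw [integral_indicator_const _ measurableSet_closedBall] at h4
    have h5 : μ.real (Metric.closedBall c (2 / ((k : ℝ) + 1))) < δ / 4 := by
      have := (ENNReal.toReal_lt_toReal (measure_ne_top _ _) ENNReal.ofReal_ne_top).2 hk
      rwa [ENNReal.toReal_ofReal (by positivity)] at this
    simp only [smul_eq_mul, mul_one] at h4
    linarith
  have hev := hlim.eventually_lt_const hint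
  obtain ⟨n0, hn0⟩ := eventually_atTop.1 hev
  refine ⟨max k n0, fun n hn => ?_⟩
  have h6 := hn0 n ((le_max_right _ _).trans hn)
  have hr : 1 / (((max k n0 : ℕ) : ℝ) + 1) ≤ 1 / ((k : ℝ) + 1) := by
    refine one_div_le_one_div_of_le (by positivity) ?_
    have : (k : ℝ) ≤ ((max k n0 : ℕ) : ℝ) := by exact_mod_cast le_max_left _ _
    linarith
  have h7 : ∑ l ∈ Finset.range n, (if |x l - c| ≤ 1 / (((max k n0 : ℕ) : ℝ) + 1) then (1 : ℝ)
      else 0) ≤ 2 * ∑ l ∈ Finset.range n, tent c (2 / ((k : ℝ) + 1)) (x l) := by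
    rw [Finset.mul_sum]
    refine Finset.sum_le_sum fun l _ => ?_
    by_cases hx : |x l - c| ≤ 1 / (((max k n0 : ℕ) : ℝ) + 1)
    · rw [if_pos hx]
      have h8 : |x l - c| / (2 / ((k : ℝ) + 1)) ≤ 1 / 2 := by
        rw [div_le_iff₀ hk0]
        have : 1 / 2 * (2 / ((k : ℝ) + 1)) = 1 / ((k : ℝ) + 1) := by ring
        rw [this]
        exact hx.trans hr
      have h9 : 1 - |x l - c| / (2 / ((k : ℝ) + 1)) ≤ tent c (2 / ((k : ℝ) + 1)) (x l) :=
        le_max_right _ _
      linarith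
    · rw [if_neg hx]
      have := tent_nonneg c (2 / ((k : ℝ) + 1)) (x l)
      linarith
  rcases Nat.eq_zero_or_pos n with hn' | hn'
  · subst hn'; simp
  have hnpos : (0 : ℝ) < n := by exact_mod_cast hn'
  rw [div_lt_iff₀ hnpos] at h6
  have h10 : 0 ≤ δ * n := by positivity
  linarith

theorem hTW (h : EX.{u}) : hTW.{u} := by
  intro Λ hr Ω _ P _ L T hT ρ hρ
  set X : ℕ → Ω → ℝ := fun i => L.ξ T i with hX
  have hm : ∀ i, AEMeasurable (X i) P := h.meas hr L T hT
  have key : ∀ i j : ℕ, i ≠ j → P {ω | EmpLimit (fun l => X l ω) (ρ ω) ∧ X i ω = X j ω ∧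
      ρ ω {X i ω} = 0} = 0 := by
    intro i j hij
    have hδ : ∀ δ : ℝ, 0 < δ → P {ω | EmpLimit (fun l => X l ω) (ρ ω) ∧ X i ω = X j ω ∧
        ρ ω {X i ω} = 0} ≤ ENNReal.ofReal (2 * δ) := by
      intro δ hδ
      set G : ℕ → Set Ω := fun m => {ω | ∀ n, m ≤ n → ∀ (hi : i < n) (hj : j < n),
        (fun l : Fin n => X l ω) ∈ DD n (1 / ((m : ℝ) + 1)) δ ⟨i, hi⟩ ⟨j, hj⟩} with hG
      have hmono : Monotone G := by
        intro m m' hmm ω hω n hn hi hj
        refine DD_anti n ?_ _ _ (hω n (hmm.trans hn) hi hj)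
        refine one_div_le_one_div_of_le (by positivity) ?_
        have : (m : ℝ) ≤ (m' : ℝ) := by exact_mod_cast hmm
        linarith
      have hbd : ∀ m, P (G m) ≤ ENNReal.ofReal (2 * δ) := by
        intro m
        set n := max m (max (i + 1) (max (j + 1) 2)) with hn
        have hi : i < n := by omega
        have hj : j < n := by omega
        have h2 : 2 ≤ n := by omega
        have hmn : m ≤ n := le_max_left _ _
        have hV : AEMeasurable (fun ω (l : Fin n) => X l ω) P :=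
          aemeasurable_pi_lambda _ fun l => hm l
        have hP : IsProbabilityMeasure (P.map (fun ω (l : Fin n) => X l ω)) :=
          Measure.isProbabilityMeasure_map hV
        have h3 := DD_bound h2 (P.map (fun ω (l : Fin n) => X l ω))
          (fun σ => exch_law X hm n (fun B hB σ => h.exch hr L T hT n B hB σ) σ)
          (r := 1 / ((m : ℝ) + 1)) (by positivity) hδ.le ⟨i, hi⟩ ⟨j, hj⟩ (by simpa using hij)
        rw [Measure.map_apply_of_aemeasurable hV (meas_DD _ _ _ _ _)] at h3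
        refine le_trans (measure_mono ?_) h3
        intro ω hω
        exact hω n hmn hi hj
      have hU : P (⋃ m, G m) ≤ ENNReal.ofReal (2 * δ) := by
        rw [hmono.measure_iUnion]
        exact iSup_le hbd
      refine le_trans (measure_mono ?_) hU
      rintro ω ⟨h1, h2, h3⟩
      obtain ⟨m0, hm0⟩ := near h1 hδ h3
      refine mem_iUnion.2 ⟨m0, fun n hn hi hj => ⟨h2, ?_⟩⟩
      have h4 := hm0 n hn
      rw [← Fin.sum_univ_eq_sum_range
        (fun l => if |X l ω - X i ω| ≤ 1 / ((m0 : ℝ) + 1) then (1 : ℝ) else 0) n] at h4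
      exact h4
    by_contra hne
    set p := P {ω | EmpLimit (fun l => X l ω) (ρ ω) ∧ X i ω = X j ω ∧ ρ ω {X i ω} = 0} with hp
    have hpt : p ≠ ∞ := measure_ne_top _ _
    have hp0 : 0 < p.toReal := ENNReal.toReal_pos hne hpt
    have h1 := hδ (p.toReal / 4) (by positivity)
    rw [← ENNReal.ofReal_toReal hpt] at h1
    have h2 := (ENNReal.ofReal_le_ofReal_iff (by positivity)).1 h1
    rw [ENNReal.toReal_ofReal ENNReal.toReal_nonneg] at h2
    linarith
  have key2 : ∀ᵐ ω ∂P, ∀ i j : ℕ, i ≠ j → ¬ (EmpLimit (fun l => X l ω) (ρ ω) ∧ X i ω = X j ω ∧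
      ρ ω {X i ω} = 0) := by
    rw [ae_all_iff]
    intro i
    rw [ae_all_iff]
    intro j
    by_cases hij : i = j
    · exact Eventually.of_forall fun ω hc => absurd hij hc
    · have := measure_eq_zero_iff_ae_notMem.1 (key i j hij)
      filter_upwards [this] with ω hω _
      exact hω
  filter_upwards [key2, hρ] with ω h1 h2 i j hij hx
  exact pos_iff_ne_zero.2 fun h0 => h1 i j hij ⟨h2, hx, h0⟩

end Pool.Agent.Helper90.EV
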